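import Pool.Agent.W12.GL.K1

/-! GL-K2: Tonelli for double stars. -/

set_option autoImplicit false

namespace Pool.Agent.W762.GL.K2

open MeasureTheory Finset Pool.Agent.W845.GL Pool.Agent.W12.GL.K1
open scoped ENNReal

theorem pi_prod' : ∀ (n : ℕ) (h : Fin n → ℝ → ℝ≥0∞), (∀ j, Measurable (h j)) →
    ∫⁻ z : Fin n → ℝ, ∏ j, h j (z j) ∂(Measure.pi fun _ : Fin n => mu) =
      ∏ j, ∫⁻ y, h j y ∂mu := by
  intro n
  induction n with
  | zero => intro h _; simp
  | succ m ih =>
    intro h hh
    have hF : Measurable fun z : Fin (m + 1) → ℝ => ∏ j, h j (z j) :=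
      Finset.measurable_prod _ fun j _ => (hh j).comp (measurable_pi_apply j)
    rw [pi_split _ hF]
    have h1 : ∀ a : ℝ, ∫⁻ z : Fin m → ℝ, ∏ j, h j ((Fin.cons a z : Fin (m + 1) → ℝ) j)
        ∂(Measure.pi fun _ : Fin m => mu) = h 0 a * ∏ j : Fin m, ∫⁻ y, h j.succ y ∂mu := by
      intro a
      rw [← ih (fun j => h j.succ) (fun j => hh _), ← lintegral_const_mul]
      · refine lintegral_congr fun z => ?_
        rw [Fin.prod_univ_succ]
        simp
      · exact Finset.measurable_prod _ fun j _ => (hh _).comp (measurable_pi_apply j)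
    simp_rw [h1]
    rw [lintegral_mul_const _ (hh 0), Fin.prod_univ_succ]

theorem dstar_prod (l m : ℕ) (g : Fin (l + m + 2) → Fin (l + m + 2) → ℝ≥0∞) :
    ∏ e ∈ Eg (DStar l m), g e.1 e.2 = g 0 1 * ∏ j : Fin (l + m),
      (if j.val < l then g 0 j.succ.succ else g 1 j.succ.succ) := by
  have h1 : Eg (DStar l m) = insert ((0 : Fin (l + m + 2)), (1 : Fin (l + m + 2)))
      ((Finset.univ : Finset (Fin (l + m))).image
        fun j => ((if j.val < l then (0 : Fin (l + m + 2)) else 1), j.succ.succ)) := by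
    ext e
    rw [mem_Eg, Finset.mem_insert, Finset.mem_image]
    unfold DStar
    simp only [Finset.mem_univ, true_and, SimpleGraph.fromRel_adj]
    constructor
    · rintro ⟨h1, h2, h3⟩
      have h1' : e.1.val < e.2.val := h1
      have h4 : (e.1.val = 0 ∧ e.2.val = 1) ∨ (e.1.val = 0 ∧ 2 ≤ e.2.val ∧ e.2.val < l + 2)
          ∨ (e.1.val = 1 ∧ l + 2 ≤ e.2.val) := by
        rcases h3 with h3 | h3
        · exact h3
        · exfalso
          omega
      rcases h4 with h4 | h4 | h4
      · left
        ext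
        · simp [h4.1]
        · simp [h4.2]
      · right
        have h5 := e.2.isLt
        refine ⟨⟨e.2.val - 2, by omega⟩, ?_⟩
        have h6 : e.2.val - 2 < l := by omega
        ext
        · simp [h6, h4.1]
        · simp; omega
      · right
        have h5 := e.2.isLt
        refine ⟨⟨e.2.val - 2, by omega⟩, ?_⟩
        have h6 : ¬ e.2.val - 2 < l := by omega
        ext
        · simp [h6, h4.1]
        · simp; omega
    · rintro (rfl | ⟨j, rfl⟩)
      · refine ⟨Fin.zero_lt_one, ?_, Or.inl (Or.inl ⟨rfl, by simp⟩)⟩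
        simp
      · have hj := j.isLt
        by_cases hl : j.val < l
        · simp only [hl, if_true]
          refine ⟨?_, ?_, Or.inl (Or.inr (Or.inl ⟨by simp, by simp, by simp; omega⟩))⟩
          · rw [Fin.lt_def]; simp
          · intro h; have := congrArg Fin.val h; simp at this
        · simp only [hl, if_false]
          refine ⟨?_, ?_, Or.inl (Or.inr (Or.inr ⟨by simp, by simp; omega⟩))⟩
          · rw [Fin.lt_def]; simp
          · intro h; have := congrArg Fin.val h; simp at this
  rw [h1, Finset.prod_insert, Finset.prod_image]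
  · congr 1
    refine Finset.prod_congr rfl fun j _ => ?_
    by_cases hl : j.val < l
    · simp [hl]
    · simp [hl]
  · intro a _ b _ hab
    have h2 := congrArg Prod.snd hab
    simpa using h2
  · intro h
    rw [Finset.mem_image] at h
    obtain ⟨j, -, hj⟩ := h
    have h2 := congrArg (fun p => (Prod.snd p).val) hj
    simp at h2

theorem prod_split (l m : ℕ) (a b : ℝ≥0∞) :
    ∏ j : Fin (l + m), (if j.val < l then a else b) = a ^ l * b ^ m := by
  rw [Fin.prod_univ_add]
  simp

theorem k2 : S_K2 := by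
  intro κ hκ l m
  rw [restrict_eq]
  have h1 : ∀ x : Fin (l + m + 2) → ℝ, ∏ e ∈ Eg (DStar l m), ENNReal.ofReal (κ (x e.1) (x e.2)) =
      ENNReal.ofReal (κ (x 0) (x 1)) * ∏ j : Fin (l + m),
        (if j.val < l then ENNReal.ofReal (κ (x 0) (x j.succ.succ)) else
          ENNReal.ofReal (κ (x 1) (x j.succ.succ))) := fun x =>
    dstar_prod l m fun a b => ENNReal.ofReal (κ (x a) (x b))
  simp_rw [h1]
  have hm : Measurable fun p : ℝ × ℝ => ENNReal.ofReal (κ p.1 p.2) :=
    ENNReal.measurable_ofReal.comp hκ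
  have hc : ∀ a b : Fin (l + m + 2), Measurable fun x : Fin (l + m + 2) → ℝ =>
      ENNReal.ofReal (κ (x a) (x b)) := by
    intro a b
    have h2 : Measurable fun x : Fin (l + m + 2) → ℝ => (x a, x b) := by fun_prop
    exact hm.comp h2
  have hF : Measurable fun x : Fin (l + m + 2) → ℝ =>
      ENNReal.ofReal (κ (x 0) (x 1)) * ∏ j : Fin (l + m),
        (if j.val < l then ENNReal.ofReal (κ (x 0) (x j.succ.succ)) else
          ENNReal.ofReal (κ (x 1) (x j.succ.succ))) := by
    refine (hc 0 1).mul (Finset.measurable_prod _ fun j _ => ?_)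
    by_cases hl : j.val < l
    · simp only [hl, if_true]; exact hc _ _
    · simp only [hl, if_false]; exact hc _ _
  rw [pi_split _ hF]
  refine lintegral_congr fun a => ?_
  have hca : Measurable fun y => ENNReal.ofReal (κ a y) :=
    hm.comp (measurable_const.prodMk measurable_id)
  have hF2 : Measurable fun z : Fin (l + m + 1) → ℝ =>
      ENNReal.ofReal (κ ((Fin.cons a z : Fin (l + m + 2) → ℝ) 0)
        ((Fin.cons a z : Fin (l + m + 2) → ℝ) 1)) * ∏ j : Fin (l + m),
        (if j.val < l then ENNReal.ofReal (κ ((Fin.cons a z : Fin (l + m + 2) → ℝ) 0)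
            ((Fin.cons a z : Fin (l + m + 2) → ℝ) j.succ.succ)) else
          ENNReal.ofReal (κ ((Fin.cons a z : Fin (l + m + 2) → ℝ) 1)
            ((Fin.cons a z : Fin (l + m + 2) → ℝ) j.succ.succ))) := by
    have hcons : Measurable fun z : Fin (l + m + 1) → ℝ => (Fin.cons a z : Fin (l + m + 2) → ℝ) := by
      refine measurable_pi_lambda _ fun i => ?_
      refine Fin.cases ?_ (fun j => ?_) i
      · simp only [Fin.cons_zero]; exact measurable_const
      · simp only [Fin.cons_succ]; exact measurable_pi_apply j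
    exact hF.comp hcons
  rw [pi_split _ hF2]
  refine lintegral_congr fun b => ?_
  have hcb : Measurable fun y => ENNReal.ofReal (κ b y) :=
    hm.comp (measurable_const.prodMk measurable_id)
  have h0 : ∀ w : Fin (l + m) → ℝ, (Fin.cons a (Fin.cons b w : Fin (l + m + 1) → ℝ) :
      Fin (l + m + 2) → ℝ) 0 = a := fun w => rfl
  have h1' : ∀ w : Fin (l + m) → ℝ, (Fin.cons a (Fin.cons b w : Fin (l + m + 1) → ℝ) :
      Fin (l + m + 2) → ℝ) 1 = b := fun w => rfl
  have hs : ∀ (w : Fin (l + m) → ℝ) (j : Fin (l + m)),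
      (Fin.cons a (Fin.cons b w : Fin (l + m + 1) → ℝ) : Fin (l + m + 2) → ℝ) j.succ.succ = w j :=
    fun w j => rfl
  simp only [h0, h1', hs]
  have h3 : ∀ w : Fin (l + m) → ℝ, ∏ j : Fin (l + m),
      (if j.val < l then ENNReal.ofReal (κ a (w j)) else ENNReal.ofReal (κ b (w j))) =
      ∏ j : Fin (l + m), (fun (j : Fin (l + m)) (y : ℝ) =>
        if j.val < l then ENNReal.ofReal (κ a y) else ENNReal.ofReal (κ b y)) j (w j) :=
    fun w => rfl
  have hmj : ∀ j : Fin (l + m), Measurable ((fun (j : Fin (l + m)) (y : ℝ) =>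
        if j.val < l then ENNReal.ofReal (κ a y) else ENNReal.ofReal (κ b y)) j) := by
    intro j
    by_cases hl : j.val < l
    · simp only [hl, if_true]; exact hca
    · simp only [hl, if_false]; exact hcb
  simp_rw [h3]
  have hmp : Measurable fun z : Fin (l + m) → ℝ => ∏ j : Fin (l + m),
      (fun (j : Fin (l + m)) (y : ℝ) =>
        if j.val < l then ENNReal.ofReal (κ a y) else ENNReal.ofReal (κ b y)) j (z j) :=
    Finset.measurable_prod _ fun j _ => (hmj j).comp (measurable_pi_apply j)
  rw [lintegral_const_mul _ hmp, pi_prod' _ _ hmj, mul_assoc, ← prod_split]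
  congr 1
  refine Finset.prod_congr rfl fun j _ => ?_
  by_cases hl : j.val < l
  · simp [hl]
  · simp [hl]

end Pool.Agent.W762.GL.K2
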